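import Mathlib

open Set Filter Topology

namespace Pool.Agent.Results.MP_3eafcc_gt.NotAlmostRegular

universe u

/-- cozero set of a continuous real function -/
def IsCozero {X : Type u} [TopologicalSpace X] (U : Set X) : Prop :=
  ∃ g : X → ℝ, Continuous g ∧ U = {x | g x ≠ 0}

lemma IsCozero.isOpen {X : Type u} [TopologicalSpace X] {U : Set X} (h : IsCozero U) :
    IsOpen U := by
  obtain ⟨g, hg, rfl⟩ := h
  exact isOpen_ne_fun hg continuous_const

lemma IsCozero.inter {X : Type u} [TopologicalSpace X] {U V : Set X} (h : IsCozero U)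
    (h' : IsCozero V) : IsCozero (U ∩ V) := by
  obtain ⟨g, hg, rfl⟩ := h
  obtain ⟨k, hk, rfl⟩ := h'
  refine ⟨fun x => g x * k x, hg.mul hk, ?_⟩
  ext x
  simp

/-- the ring `T''(X)` of real functions that are continuous on some dense cozero set -/
def T2 (X : Type u) [TopologicalSpace X] : Subring (X → ℝ) where
  carrier := {f | ∃ U : Set X, IsCozero U ∧ Dense U ∧ ContinuousOn f U}
  mul_mem' := by
    rintro f g ⟨U, hU, hd, hf⟩ ⟨V, hV, hd', hg⟩
    exact ⟨U ∩ V, hU.inter hV, hd.inter_of_isOpen_left hd' hU.isOpen,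
      (hf.mono inter_subset_left).mul (hg.mono inter_subset_right)⟩
  one_mem' := ⟨univ, ⟨fun _ => 1, continuous_const, by simp⟩, dense_univ, continuousOn_const⟩
  add_mem' := by
    rintro f g ⟨U, hU, hd, hf⟩ ⟨V, hV, hd', hg⟩
    exact ⟨U ∩ V, hU.inter hV, hd.inter_of_isOpen_left hd' hU.isOpen,
      (hf.mono inter_subset_left).add (hg.mono inter_subset_right)⟩
  zero_mem' := ⟨univ, ⟨fun _ => 1, continuous_const, by simp⟩, dense_univ, continuousOn_const⟩
  neg_mem' := by
    rintro f ⟨U, hU, hd, hf⟩
    exact ⟨U, hU, hd, hf.neg⟩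

/-- almost regular ring: every element is a unit or a zero divisor -/
def AlmostRegular (R : Type u) [CommRing R] : Prop :=
  ∀ a : R, IsUnit a ∨ ∃ b : R, b ≠ 0 ∧ a * b = 0

lemma cont_mem {X : Type u} [TopologicalSpace X] {f : X → ℝ} (hf : Continuous f) : f ∈ T2 X :=
  ⟨univ, ⟨fun _ => 1, continuous_const, by simp⟩, dense_univ, hf.continuousOn⟩

/-- the wedge of the line and the cofinite space -/
abbrev W : Type := {z : ℝ × CofiniteTopology ℕ // z.1 = 0 ∨ z.2 = CofiniteTopology.of 0}

def ii (x : ℝ) : W := ⟨(x, CofiniteTopology.of 0), Or.inr rfl⟩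
def jj (y : CofiniteTopology ℕ) : W := ⟨(0, y), Or.inl rfl⟩

lemma ii_cont : Continuous ii := by
  unfold ii; fun_prop
lemma jj_cont : Continuous jj := by
  unfold jj; fun_prop

lemma cof_const {g : CofiniteTopology ℕ → ℝ} (hg : Continuous g) (a b : CofiniteTopology ℕ) :
    g a = g b := by
  by_contra hne
  obtain ⟨U, V, hU, hV, ha, hb, hUV⟩ := t2_separation hne
  have h1 := (CofiniteTopology.isOpen_iff.1 (hU.preimage hg)) ⟨a, ha⟩
  have h2 := (CofiniteTopology.isOpen_iff.1 (hV.preimage hg)) ⟨b, hb⟩
  have h3 : (univ : Set (CofiniteTopology ℕ)).Finite := by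
    refine (h1.union h2).subset fun y _ => ?_
    by_contra hy
    simp only [mem_union, mem_compl_iff, mem_preimage, not_or, not_not] at hy
    exact disjoint_left.1 hUV hy.1 hy.2
  have : Infinite (CofiniteTopology ℕ) :=
    Infinite.of_injective _ (CofiniteTopology.of (X := ℕ)).injective
  exact infinite_univ h3

lemma W_not : ¬ AlmostRegular (T2 W) := by
  intro h
  have hf : Continuous fun z : W => z.1.1 := by fun_prop
  rcases h ⟨_, cont_mem hf⟩ with hu | ⟨⟨b, U, ⟨g, hg, rfl⟩, hd, hb⟩, hb0, hfb⟩
  · obtain ⟨c, hc⟩ := hu.exists_right_inv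
    have := congrFun (congrArg Subtype.val hc) (ii 0)
    simp [ii] at this
  · have hzero : ∀ z : W, z.1.1 * b z = 0 := fun z => congrFun (congrArg Subtype.val hfb) z
    have hop : IsOpen {z : W | z.1.2 ≠ CofiniteTopology.of 0} :=
      isOpen_ne.preimage (by fun_prop : Continuous fun z : W => z.1.2)
    obtain ⟨z, hz, hzU⟩ := hd.inter_open_nonempty _ hop ⟨jj (CofiniteTopology.of 1), by
      simp [jj]⟩
    have hz1 : z = jj z.1.2 := by
      rcases z.2 with h | h
      · apply Subtype.ext
        exact Prod.ext h rfl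
      · exact (hz h).elim
    have hjU : ∀ y, g (jj y) ≠ 0 := by
      intro y
      rw [show g (jj y) = g (jj z.1.2) from cof_const (hg.comp jj_cont) _ _, ← hz1]
      exact hzU
    have hbj : Continuous (b ∘ jj) := hb.comp_continuous jj_cont hjU
    have h0 : ii 0 = jj (CofiniteTopology.of 0) := rfl
    have hbi : ContinuousAt (b ∘ ii) 0 := by
      refine ContinuousAt.comp ?_ ii_cont.continuousAt
      refine hb.continuousAt ((isOpen_ne_fun hg continuous_const).mem_nhds ?_)
      rw [h0]; exact hjU _
    have hne : ∀ x : ℝ, x ≠ 0 → b (ii x) = 0 := fun x hx =>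
      (mul_eq_zero.1 (hzero (ii x))).resolve_left hx
    have hb00 : b (ii 0) = 0 := by
      have h1 : Tendsto (b ∘ ii) (𝓝[≠] 0) (𝓝 (b (ii 0))) := hbi.tendsto.mono_left nhdsWithin_le_nhds
      have h2 : Tendsto (b ∘ ii) (𝓝[≠] 0) (𝓝 0) :=
        tendsto_const_nhds.congr' (eventually_nhdsWithin_of_forall fun x hx => (hne x hx).symm)
      exact tendsto_nhds_unique h1 h2
    apply hb0
    apply Subtype.ext
    funext w
    show b w = 0
    rcases w.2 with h | h
    · have : w = jj w.1.2 := Subtype.ext (Prod.ext h rfl)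
      rw [this, show b (jj w.1.2) = b (jj (CofiniteTopology.of 0)) from cof_const hbj _ _, ← h0]
      exact hb00
    · have : w = ii w.1.1 := Subtype.ext (Prod.ext rfl h)
      rw [this]
      by_cases hx : w.1.1 = 0
      · rw [hx]; exact hb00
      · exact hne _ hx

lemma tych {X : Type u} [TopologicalSpace X] [T35Space X] : AlmostRegular (T2 X) := by
  classical
  rintro ⟨f, U, ⟨h, hh, rfl⟩, hd, hf⟩
  by_cases hz : ∀ x, f x ≠ 0
  · left
    refine IsUnit.of_mul_eq_one ⟨fun x => (f x)⁻¹, _, ⟨h, hh, rfl⟩, hd, hf.inv₀ fun x _ => hz x⟩ ?_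
    apply Subtype.ext
    funext x
    exact mul_inv_cancel₀ (hz x)
  right
  push Not at hz
  obtain ⟨p, hp⟩ := hz
  by_cases hint : (interior {x | f x = 0}).Nonempty
  · obtain ⟨q, hq⟩ := hint
    obtain ⟨g, hg, hg0, hg1⟩ := CompletelyRegularSpace.completely_regular q
      (interior {x | f x = 0})ᶜ isOpen_interior.isClosed_compl (by simpa using hq)
    refine ⟨⟨fun x => 1 - (g x : ℝ), cont_mem (by fun_prop)⟩, ?_, ?_⟩
    · intro h0
      have := congrFun (congrArg Subtype.val h0) q
      simp [hg0] at this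
    · apply Subtype.ext
      funext x
      show f x * (1 - (g x : ℝ)) = 0
      by_cases hx : x ∈ interior {x | f x = 0}
      · rw [show f x = 0 from (interior_subset hx : x ∈ {x | f x = 0}), zero_mul]
      · rw [hg1 hx]; simp
  · have hop : IsOpen {x | h x ≠ 0} := isOpen_ne_fun hh continuous_const
    let k : X → ℝ := fun x => h x * min |f x| 1
    have hk : Continuous k := by
      rw [continuous_iff_continuousAt]
      intro x
      by_cases hx : h x = 0
      · have hkx : k x = 0 := by simp [k, hx]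
        rw [ContinuousAt, hkx]
        have h1 : Tendsto (fun y => |h y|) (𝓝 x) (𝓝 0) := by
          have := hh.abs.tendsto x
          simpa [hx] using this
        refine squeeze_zero_norm (fun y => ?_) h1
        simp only [k, Real.norm_eq_abs, abs_mul]
        have h2 : |min |f y| 1| ≤ 1 := by
          rw [abs_of_nonneg (le_min (abs_nonneg _) zero_le_one)]; exact min_le_right _ _
        exact mul_le_of_le_one_right (abs_nonneg _) h2
      · have hfx : ContinuousAt f x := hf.continuousAt (hop.mem_nhds hx)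
        exact hh.continuousAt.mul (hfx.abs.min continuousAt_const)
    have hkne : ∀ x, k x ≠ 0 ↔ h x ≠ 0 ∧ f x ≠ 0 := by
      intro x
      simp only [k, ne_eq, mul_eq_zero, not_or]
      refine and_congr_right fun _ => not_congr ?_
      constructor
      · intro h1
        rcases min_eq_iff.1 h1 with h2 | h2
        · exact abs_eq_zero.1 h2.1
        · exact absurd h2.1 one_ne_zero
      · intro h1; simp [h1]
    have hdk : Dense {x | k x ≠ 0} := by
      rw [dense_iff_inter_open]
      intro V hV hne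
      by_contra hn
      apply hint
      obtain ⟨y, hyV, hyU⟩ := hd.inter_open_nonempty V hV hne
      refine ⟨y, mem_interior.2 ⟨V ∩ {x | h x ≠ 0}, ?_, hV.inter hop, hyV, hyU⟩⟩
      rintro w ⟨hwV, hwU⟩
      by_contra hw
      exact hn ⟨w, hwV, (hkne w).2 ⟨hwU, hw⟩⟩
    refine ⟨⟨fun x => if x = p then 1 else 0, _, ⟨k, hk, rfl⟩, hdk, ?_⟩, ?_, ?_⟩
    · refine (continuousOn_const (c := (0 : ℝ))).congr fun x hx => ?_
      have : x ≠ p := fun h => ((hkne x).1 hx).2 (h ▸ hp)
      simp [this]
    · intro h0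
      have := congrFun (congrArg Subtype.val h0) p
      simp at this
    · apply Subtype.ext
      funext x
      show f x * (if x = p then 1 else 0) = 0
      by_cases hx : x = p
      · simp [hx, hp]
      · simp [hx]

theorem result :
    ∃ (X : Type) (_ : TopologicalSpace X), T1Space X ∧ ¬ AlmostRegular (T2 X) :=
  ⟨W, inferInstance, inferInstance, W_not⟩

end Pool.Agent.Results.MP_3eafcc_gt.NotAlmostRegular
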