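import Pool.Agent.Results.MP_3eafcc_gt.NotAlmostRegular

namespace Pool.Agent.Results.MP_3eafcc_gt.Tychonoff

universe u

open Pool.Agent.Results.MP_3eafcc_gt.NotAlmostRegular

theorem result : ∀ (X : Type u) [TopologicalSpace X] [T35Space X], AlmostRegular (T2 X) :=
  fun _ _ _ => tych

end Pool.Agent.Results.MP_3eafcc_gt.Tychonoff
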